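import Pool.Agent.Helper17.FP.Stmts

set_option autoImplicit false

/-! MP_c38931_co, project FP, module RI: the range `q ≤ L ^ (1 / 4)`. -/

open Finset

namespace Pool.Agent.Helper17.FP

open Pool.Agent.Helper17.SO Pool.Agent.Helper17.SV

theorem ri_mem {u w p : ℕ} : p ∈ PP u w ↔ (u < p ∧ p ≤ w) ∧ p.Prime := by
  simp [PP]

theorem ri_split (f : ℕ → ℝ) {a b c : ℕ} (h1 : a ≤ b) (h2 : b ≤ c) :
    ∑ p ∈ PP a c, f p = ∑ p ∈ PP a b, f p + ∑ p ∈ PP b c, f p := by
  unfold PP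
  rw [Finset.sum_filter, Finset.sum_filter, Finset.sum_filter, Finset.sum_Ioc_consecutive _ h1 h2]

theorem ri_two : PP 1 2 = {2} := by decide

theorem ri_one {z1 : ℕ} (h : 2 ≤ z1) :
    ∑ p ∈ PP 1 z1, 1 / (p : ℝ) = 1 / 2 + ∑ p ∈ PP 2 z1, 1 / (p : ℝ) := by
  rw [ri_split (fun p : ℕ => 1 / (p : ℝ)) (by norm_num : 1 ≤ 2) h, ri_two]
  norm_num

theorem ri_jac {q p : ℕ} (hq : q.Prime) (hp : p.Prime) (h : q < p) :
    jacobiSym (p : ℤ) q = 1 ∨ jacobiSym (p : ℤ) q = -1 := by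
  apply jacobiSym.eq_one_or_neg_one
  rw [Int.gcd_natCast_natCast]
  exact (Nat.coprime_primes hp hq).2 (by omega)

theorem ri_jle (p q : ℕ) : -(jacobiSym (p : ℤ) q : ℝ) ≤ 1 := by
  rcases jacobiSym.trichotomy (p : ℤ) q with h | h | h <;> rw [h] <;> norm_num

theorem ri_half {q z1 z : ℕ} (hq : q.Prime) (hz : q ≤ z1) :
    ∑ p ∈ (PP z1 z).filter (fun p : ℕ => jacobiSym (p : ℤ) q = -1), 1 / (p : ℝ) =
      (1 / 2) * (∑ p ∈ PP z1 z, 1 / (p : ℝ) -
        ∑ p ∈ PP z1 z, (jacobiSym (p : ℤ) q : ℝ) / p) := by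
  rw [Finset.sum_filter, ← Finset.sum_sub_distrib, Finset.mul_sum]
  apply Finset.sum_congr rfl
  intro p hp
  obtain ⟨⟨h1, h2⟩, h3⟩ := ri_mem.1 hp
  rcases ri_jac hq h3 (by omega) with h | h
  · rw [h]; norm_num
  · rw [h]; norm_num; ring

theorem ri_sumP {C1 C2 : ℝ} (_h10 : 0 ≤ C1) (h20 : 0 ≤ C2)
    (h1 : ∀ u w : ℕ, 2 ≤ u → u ≤ w → |∑ p ∈ PP u w, 1 / (p : ℝ) - LL u w| ≤ C1)
    (h2 : ∀ q z : ℕ, q.Prime → q ≠ 2 → 2 ≤ z →
      ∑ p ∈ PP 1 z, (jacobiSym (p : ℤ) q : ℝ) / p ≤ Real.log (1 + Real.log q) + C2)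
    {q z1 z : ℕ} (hq : q.Prime) (hq2 : q ≠ 2) (hqz : q ≤ z1) (h3 : 3 ≤ z1) (hz : z1 ≤ z) :
    1 / 2 * Real.log (Real.log z) - 3 / 2 * Real.log (Real.log z1) - (C1 + C2 + 2) ≤
      ∑ p ∈ (PP z1 z).filter (fun p : ℕ => jacobiSym (p : ℤ) q = -1), 1 / (p : ℝ) := by
  rw [ri_half hq hqz]
  have hl1 : 1 ≤ Real.log z1 := by
    rw [Real.le_log_iff_exp_le (by positivity)]
    have h4 : (3 : ℝ) ≤ z1 := by exact_mod_cast h3
    linarith [Real.exp_one_lt_d9]
  have hz1R : (1 : ℝ) ≤ z1 := by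
    have h4 : (3 : ℝ) ≤ z1 := by exact_mod_cast h3
    linarith
  have hlz : Real.log z1 ≤ Real.log z := by
    apply Real.log_le_log (by positivity)
    exact_mod_cast hz
  have hA := (abs_le.1 (h1 z1 z (by omega) hz)).1
  have hL : LL z1 z = Real.log (Real.log z) - Real.log (Real.log z1) := by
    unfold LL
    rw [Real.log_div (by linarith) (by linarith)]
  rw [hL] at hA
  have hB := h2 q z hq hq2 (by omega)
  rw [ri_split (fun p : ℕ => (jacobiSym (p : ℤ) q : ℝ) / p) (by omega : 1 ≤ z1) hz] at hB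
  have hC : -∑ p ∈ PP 1 z1, (jacobiSym (p : ℤ) q : ℝ) / p ≤ ∑ p ∈ PP 1 z1, 1 / (p : ℝ) := by
    rw [← Finset.sum_neg_distrib]
    apply Finset.sum_le_sum
    intro p _
    rw [← neg_div]
    apply div_le_div_of_nonneg_right (ri_jle p q) (by positivity)
  have hD := (abs_le.1 (h1 2 z1 (le_refl _) (by omega))).2
  have hL2 : LL 2 z1 = Real.log (Real.log z1) - Real.log (Real.log 2) := by
    unfold LL
    push_cast
    rw [Real.log_div (by linarith) (by linarith [Real.log_two_gt_d9])]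
  rw [hL2] at hD
  rw [ri_one (by omega)] at hC
  have hE : -Real.log (Real.log 2) ≤ 1 / 2 := by
    have h5 := Real.one_sub_inv_le_log_of_pos (show (0 : ℝ) < Real.log 2 by
      linarith [Real.log_two_gt_d9])
    have h6 : (Real.log 2)⁻¹ ≤ 3 / 2 := by
      rw [inv_le_comm₀ (by linarith [Real.log_two_gt_d9]) (by norm_num)]
      linarith [Real.log_two_gt_d9]
    linarith
  have hF : Real.log (1 + Real.log q) ≤ Real.log 2 + Real.log (Real.log z1) := by
    rw [← Real.log_mul (by norm_num) (by linarith)]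
    have hq1 : (1 : ℝ) ≤ q := by exact_mod_cast hq.one_lt.le
    have h7 : 0 ≤ Real.log q := Real.log_nonneg hq1
    apply Real.log_le_log (by linarith)
    have h8 : Real.log q ≤ Real.log z1 := by
      apply Real.log_le_log (by linarith)
      exact_mod_cast hqz
    linarith
  linarith [Real.log_two_lt_d9]

theorem ri_exp {K s a c : ℝ} (ha : 0 < a) (hc : 0 < c)
    (h : 1 / 2 * Real.log a - 3 / 2 * Real.log c - K ≤ s) :
    Real.exp (-s) ≤ Real.exp K * (c ^ (3 / 2 : ℝ) * a ^ (-(1 / 2) : ℝ)) := by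
  rw [Real.rpow_def_of_pos hc, Real.rpow_def_of_pos ha, ← Real.exp_add, ← Real.exp_add]
  apply Real.exp_le_exp.2
  linarith

theorem ri_fin {L K D b c a : ℝ} (hL : 1 ≤ L) (hK : 0 ≤ K) (hD : 0 ≤ D) (hb : 0 < b) (hc0 : 0 ≤ c)
    (hc : c ≤ D * L ^ (1 / 12 : ℝ)) (ha : L / (4 * b) ≤ a) :
    K * (c ^ (3 / 2 : ℝ) * a ^ (-(1 / 2) : ℝ)) ≤
      K * (D ^ (3 / 2 : ℝ) * (4 * b) ^ (1 / 2 : ℝ)) * L ^ (-(3 / 8) : ℝ) := by
  have hL0 : 0 < L := by linarith
  have h1 : c ^ (3 / 2 : ℝ) ≤ D ^ (3 / 2 : ℝ) * L ^ (1 / 8 : ℝ) := by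
    calc c ^ (3 / 2 : ℝ) ≤ (D * L ^ (1 / 12 : ℝ)) ^ (3 / 2 : ℝ) :=
          Real.rpow_le_rpow hc0 hc (by norm_num)
      _ = D ^ (3 / 2 : ℝ) * L ^ (1 / 8 : ℝ) := by
          rw [Real.mul_rpow hD (by positivity), ← Real.rpow_mul hL0.le]
          norm_num
  have h2 : a ^ (-(1 / 2) : ℝ) ≤ (4 * b) ^ (1 / 2 : ℝ) * L ^ (-(1 / 2) : ℝ) := by
    calc a ^ (-(1 / 2) : ℝ) ≤ (L / (4 * b)) ^ (-(1 / 2) : ℝ) :=
          Real.rpow_le_rpow_of_nonpos (by positivity) ha (by norm_num)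
      _ = (4 * b) ^ (1 / 2 : ℝ) * L ^ (-(1 / 2) : ℝ) := by
          rw [Real.div_rpow hL0.le (by positivity), Real.rpow_neg (by positivity : 0 ≤ 4 * b)]
          field_simp
  have ha0 : 0 < a := lt_of_lt_of_le (by positivity) ha
  calc K * (c ^ (3 / 2 : ℝ) * a ^ (-(1 / 2) : ℝ))
      ≤ K * ((D ^ (3 / 2 : ℝ) * L ^ (1 / 8 : ℝ)) * ((4 * b) ^ (1 / 2 : ℝ) * L ^ (-(1 / 2) : ℝ))) := by
        apply mul_le_mul_of_nonneg_left _ hK
        apply mul_le_mul h1 h2 (by positivity) (by positivity)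
    _ = K * (D ^ (3 / 2 : ℝ) * (4 * b) ^ (1 / 2 : ℝ)) * (L ^ (1 / 8 : ℝ) * L ^ (-(1 / 2) : ℝ)) := by
        ring
    _ = K * (D ^ (3 / 2 : ℝ) * (4 * b) ^ (1 / 2 : ℝ)) * L ^ (-(3 / 8) : ℝ) := by
        rw [← Real.rpow_add hL0]
        norm_num

/-- large `x` -/
theorem ri_large (lam b : ℕ) (hb : 1 ≤ b) : ∃ X : ℕ, 16 ≤ X ∧ ∀ x : ℕ, X ≤ x →
    Real.log x + (8 * lam + 8) ≤ (x : ℝ) ^ (1 / (2 * b) : ℝ) ∧
      2 ≤ (x : ℝ) ^ (1 / (4 * b) : ℝ) := by
  have hb0 : (0 : ℝ) < b := by exact_mod_cast hb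
  have hr : (0 : ℝ) < 1 / (2 * b) := by positivity
  have hr2 : (0 : ℝ) < 1 / (4 * b) := by positivity
  have h1 := (isLittleO_log_rpow_atTop hr).bound (show (0 : ℝ) < 1 / 2 by norm_num)
  have h2 := (tendsto_rpow_atTop hr).eventually_ge_atTop (2 * (8 * (lam : ℝ) + 8))
  have h3 := (tendsto_rpow_atTop hr2).eventually_ge_atTop 2
  have h4 := tendsto_natCast_atTop_atTop (R := ℝ) |>.eventually
    (h1.and (h2.and (h3.and (Filter.eventually_ge_atTop (1 : ℝ)))))
  obtain ⟨X, hX⟩ := Filter.eventually_atTop.1 h4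
  refine ⟨max X 16, le_max_right _ _, fun x hx => ?_⟩
  obtain ⟨e1, e2, e3, e4⟩ := hX x (le_trans (le_max_left _ _) hx)
  refine ⟨?_, e3⟩
  rw [Real.norm_of_nonneg (Real.log_nonneg e4), Real.norm_of_nonneg (by positivity)] at e1
  linarith

theorem st_RI (h1 : SO.ST_MER) (h2 : ST_LUP) (h3 : ST_SL) : ST_RI := by
  classical
  intro lam hlam
  obtain ⟨C1, hC1, h1⟩ := h1
  obtain ⟨C2, hC2, h2⟩ := h2
  obtain ⟨b, C, hb, hC, h3⟩ := h3 lam hlam
  obtain ⟨X, hX16, hX⟩ := ri_large lam b hb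
  have hb0 : (0 : ℝ) < b := by exact_mod_cast hb
  set D : ℝ := Real.log (8 * lam + 9) + 12 with hDdef
  have hD : 0 ≤ D := by
    have : 0 ≤ Real.log (8 * lam + 9) := Real.log_nonneg (by
      have : (0 : ℝ) ≤ lam := by positivity
      linarith)
    linarith
  set K2 : ℝ := Real.exp (C1 + C2 + 2) * (D ^ (3 / 2 : ℝ) * (4 * b) ^ (1 / 2 : ℝ)) with hK2
  have hK20 : 0 ≤ K2 := by positivity
  have hX1 : (1 : ℝ) ≤ Real.log X := by
    rw [Real.le_log_iff_exp_le (by positivity)]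
    have h4 : (16 : ℝ) ≤ X := by exact_mod_cast hX16
    linarith [Real.exp_one_lt_d9]
  refine ⟨C * (K2 + 1) + 2 * Real.log X ^ (1 / 8 : ℝ), by positivity, ?_⟩
  intro x w hx hw S hS
  set L := Real.log x with hLdef
  have hx16 : (16 : ℝ) ≤ x := by exact_mod_cast hx
  have hL1 : 1 ≤ L := by
    rw [hLdef, Real.le_log_iff_exp_le (by linarith)]
    linarith [Real.exp_one_lt_d9]
  have hL0 : 0 < L := by linarith
  rcases lt_or_ge x X with hlt | hge
  · -- small `x`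
    have hc : S.card ≤ x + 1 := by
      have : S ⊆ Finset.range (x + 1) := fun k hk => by
        rw [Finset.mem_range]
        exact Nat.lt_succ_of_le (hS k hk).1
      calc S.card ≤ (Finset.range (x + 1)).card := Finset.card_le_card this
        _ = x + 1 := by simp
    have hcR : (S.card : ℝ) ≤ x + 1 := by exact_mod_cast hc
    have hLX : L ≤ Real.log X := by
      apply Real.log_le_log (by linarith)
      exact_mod_cast hlt.le
    have hpow : 1 ≤ Real.log X ^ (1 / 8 : ℝ) * L ^ (-(1 / 8) : ℝ) := by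
      rw [Real.rpow_neg hL0.le, ← div_eq_mul_inv, one_le_div (by positivity)]
      exact Real.rpow_le_rpow hL0.le hLX (by norm_num)
    have hpos : 0 ≤ C * (K2 + 1) * x * L ^ (-(1 / 8) : ℝ) := by positivity
    have h5 : (x : ℝ) + 1 ≤ 2 * x := by linarith
    have h6 : 2 * (x : ℝ) * 1 ≤ 2 * x * (Real.log X ^ (1 / 8 : ℝ) * L ^ (-(1 / 8) : ℝ)) :=
      mul_le_mul_of_nonneg_left hpow (by linarith)
    calc (S.card : ℝ) ≤ 2 * x * (Real.log X ^ (1 / 8 : ℝ) * L ^ (-(1 / 8) : ℝ)) := by linarith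
      _ ≤ (C * (K2 + 1) + 2 * Real.log X ^ (1 / 8 : ℝ)) * x * L ^ (-(1 / 8) : ℝ) := by
          have : (C * (K2 + 1) + 2 * Real.log X ^ (1 / 8 : ℝ)) * x * L ^ (-(1 / 8) : ℝ) =
            C * (K2 + 1) * x * L ^ (-(1 / 8) : ℝ) +
              2 * x * (Real.log X ^ (1 / 8 : ℝ) * L ^ (-(1 / 8) : ℝ)) := by ring
          rw [this]
          linarith
  · -- large `x`
    obtain ⟨g1, g2⟩ := hX x hge
    rw [← hLdef] at g1
    set z1 : ℕ := ⌈L⌉₊ + 8 * lam + 7 with hz1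
    set z : ℕ := ⌊(x : ℝ) ^ (1 / (2 * b) : ℝ)⌋₊ with hz
    have hz1L : L ≤ z1 := by
      rw [hz1]; push_cast
      have := Nat.le_ceil L
      have h8 : (0 : ℝ) ≤ lam := by positivity
      linarith
    have hz1U : (z1 : ℝ) ≤ L + (8 * lam + 8) := by
      rw [hz1]; push_cast
      have := (Nat.ceil_lt_add_one hL0.le).le
      linarith
    have hz1z : z1 ≤ z := by
      rw [hz]
      apply Nat.le_floor
      linarith
    have h3z1 : 3 ≤ z1 := by omega
    have hzb : (z : ℝ) ≤ (x : ℝ) ^ (1 / (2 * b) : ℝ) := Nat.floor_le (by positivity)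
    have hzpow : (z : ℝ) ^ (2 * b) ≤ x := by
      calc (z : ℝ) ^ (2 * b) ≤ ((x : ℝ) ^ (1 / (2 * b) : ℝ)) ^ (2 * b) :=
            pow_le_pow_left₀ (by positivity) hzb _
        _ = x := by
            rw [← Real.rpow_natCast, ← Real.rpow_mul (by positivity)]
            push_cast
            rw [one_div_mul_cancel (by positivity), Real.rpow_one]
    have hzpowN : z ^ (2 * b) ≤ x := by exact_mod_cast hzpow
    have hz1N : 1 ≤ z := by omega
    have hzb1 : z ^ b * 1 ≤ x := by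
      rw [mul_one]
      exact le_trans (Nat.pow_le_pow_right hz1N (by omega)) hzpowN
    have hwz : w * z1 * 1 ≤ x := by
      rw [mul_one]
      have hwz1 : w ≤ z1 := by
        have : (w : ℝ) ≤ z1 := le_trans hw hz1L
        exact_mod_cast this
      calc w * z1 ≤ z * z := Nat.mul_le_mul (by omega) hz1z
        _ = z ^ 2 := by ring
        _ ≤ z ^ (2 * b) := Nat.pow_le_pow_right hz1N (by omega)
        _ ≤ x := hzpowN
    have hlogz : L / (4 * b) ≤ Real.log z := by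
      have e1 : (x : ℝ) ^ (1 / (4 * b) : ℝ) ≤ z := by
        have e2 : (x : ℝ) ^ (1 / (2 * b) : ℝ) =
            (x : ℝ) ^ (1 / (4 * b) : ℝ) * (x : ℝ) ^ (1 / (4 * b) : ℝ) := by
          rw [← Real.rpow_add (by linarith)]
          congr 1
          field_simp
          norm_num
        have e3 : (x : ℝ) ^ (1 / (2 * b) : ℝ) - 1 < z := by
          have := Nat.lt_floor_add_one ((x : ℝ) ^ (1 / (2 * b) : ℝ))
          rw [← hz] at this
          linarith
        rw [e2] at e3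
        nlinarith
      calc L / (4 * b) = Real.log ((x : ℝ) ^ (1 / (4 * b) : ℝ)) := by
            rw [Real.log_rpow (by linarith)]
            ring
        _ ≤ Real.log z := Real.log_le_log (by positivity) e1
    have hlogz1 : Real.log z1 ≤ D * L ^ (1 / 12 : ℝ) := by
      have e1 : (z1 : ℝ) ≤ (8 * lam + 9) * L := by
        have h8 : (0 : ℝ) ≤ lam := by positivity
        nlinarith
      have e2 : Real.log z1 ≤ Real.log (8 * lam + 9) + L ^ (1 / 12 : ℝ) * 12 := by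
        calc Real.log z1 ≤ Real.log ((8 * lam + 9) * L) :=
              Real.log_le_log (by linarith) e1
          _ = Real.log (8 * lam + 9) + Real.log L := Real.log_mul (by positivity) (by linarith)
          _ ≤ _ := by
              have := Real.log_le_rpow_div hL0.le (show (0 : ℝ) < 1 / 12 by norm_num)
              have e3 : L ^ (1 / 12 : ℝ) / (1 / 12) = L ^ (1 / 12 : ℝ) * 12 := by ring
              rw [e3] at this
              linarith
      have e4 : 1 ≤ L ^ (1 / 12 : ℝ) := Real.one_le_rpow hL1 (by norm_num)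
      have e5 : 0 ≤ Real.log (8 * lam + 9) := Real.log_nonneg (by
        have : (0 : ℝ) ≤ lam := by positivity
        linarith)
      rw [hDdef]
      nlinarith
    have hlogz10 : 0 < Real.log z1 := by
      apply Real.log_pos
      have : (3 : ℝ) ≤ z1 := by exact_mod_cast h3z1
      linarith
    have hlogz0 : 0 < Real.log z := lt_of_lt_of_le (by positivity) hlogz
    -- the bound for one `q`
    have key : ∀ q ∈ Finset.Ioc 0 ⌊L ^ (1 / 4 : ℝ)⌋₊,
        (((S.filter (fun k => ArithF lam q k)).card : ℕ) : ℝ) ≤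
          C * (K2 + 1) * x * L ^ (-(3 / 8) : ℝ) := by
      intro q hq
      rw [Finset.mem_Ioc] at hq
      rcases Finset.eq_empty_or_nonempty (S.filter (fun k => ArithF lam q k)) with he | ⟨k0, hk0⟩
      · rw [he]; simp; positivity
      rw [Finset.mem_filter] at hk0
      obtain ⟨v0, n0, _, _, _, hodd, hqp, hqv, _⟩ := hk0.2
      have hq2 : q ≠ 2 := by
        rintro rfl
        rw [Nat.odd_iff] at hodd
        omega
      have hqL : (q : ℝ) ≤ L ^ (1 / 4 : ℝ) := by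
        calc (q : ℝ) ≤ (⌊L ^ (1 / 4 : ℝ)⌋₊ : ℝ) := by exact_mod_cast hq.2
          _ ≤ _ := Nat.floor_le (by positivity)
      have hqz : q ≤ z1 := by
        have : (q : ℝ) ≤ z1 := by
          calc (q : ℝ) ≤ L ^ (1 / 4 : ℝ) := hqL
            _ ≤ L ^ (1 : ℝ) := Real.rpow_le_rpow_of_exponent_le hL1 (by norm_num)
            _ = L := Real.rpow_one L
            _ ≤ z1 := hz1L
        exact_mod_cast this
      have hmain := h3 x 1 0 z1 z w
        ((PP z1 z).filter (fun p : ℕ => jacobiSym (p : ℤ) q = -1)) ∅ (by omega) hz1z (le_refl _)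
        hzb1 hwz (Finset.filter_subset _ _) (Finset.empty_subset _)
        (by
          intro p hp h
          have h9 := (ri_mem.1 (Finset.filter_subset _ _ hp)).2
          rw [Nat.dvd_one] at h
          rw [h] at h9
          exact Nat.not_prime_one h9)
        (by simp) (S.filter (fun k => ArithF lam q k))
        (by
          intro k hk
          rw [Finset.mem_filter] at hk
          obtain ⟨hkS, v, n, hkn, hn, _, _, _, _, hp⟩ := hk
          obtain ⟨hkx, hgd, _⟩ := hS k hkS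
          refine ⟨hkx, by omega, by omega, hgd, ?_, by simp⟩
          intro p hpP hfac
          rw [Finset.mem_filter] at hpP
          obtain ⟨hpP, hj⟩ := hpP
          obtain ⟨⟨hp1, hp2⟩, hp3⟩ := ri_mem.1 hpP
          have hkl : k - lam = n := by omega
          rw [hkl] at hfac
          have := hp p hp3 (by omega) (by rw [hfac]; exact odd_one)
          rw [hj] at this
          norm_num at this)
      have hsum := ri_sumP hC1 hC2 h1 h2 hqp hq2 hqz h3z1 hz1z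
      have hexp := ri_exp hlogz0 hlogz10 hsum
      have hfin := ri_fin hL1 (Real.exp_pos (C1 + C2 + 2)).le hD hb0 hlogz10.le hlogz1 hlogz
      rw [← hK2] at hfin
      have hz1inv : 1 / (z1 : ℝ) ≤ L ^ (-(3 / 8) : ℝ) := by
        calc 1 / (z1 : ℝ) ≤ 1 / L := one_div_le_one_div_of_le hL0 hz1L
          _ = L ^ (-1 : ℝ) := by rw [Real.rpow_neg_one, one_div]
          _ ≤ L ^ (-(3 / 8) : ℝ) := Real.rpow_le_rpow_of_exponent_le hL1 (by norm_num)
      rw [Finset.sum_empty, sub_zero, Nat.cast_one, div_one] at hmain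
      calc (((S.filter (fun k => ArithF lam q k)).card : ℕ) : ℝ)
          ≤ C * x * (Real.exp (-∑ p ∈ (PP z1 z).filter
              (fun p : ℕ => jacobiSym (p : ℤ) q = -1), 1 / (p : ℝ)) + 1 / (z1 : ℝ)) := hmain
        _ ≤ C * x * (K2 * L ^ (-(3 / 8) : ℝ) + L ^ (-(3 / 8) : ℝ)) := by
            apply mul_le_mul_of_nonneg_left _ (by positivity)
            linarith
        _ = C * (K2 + 1) * x * L ^ (-(3 / 8) : ℝ) := by ring
    -- sum over `q`
    have hcover : S ⊆ (Finset.Ioc 0 ⌊L ^ (1 / 4 : ℝ)⌋₊).biUnion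
        (fun q => S.filter (fun k => ArithF lam q k)) := by
      intro k hk
      obtain ⟨_, _, q, hqL, hA⟩ := hS k hk
      rw [Finset.mem_biUnion]
      refine ⟨q, ?_, ?_⟩
      · rw [Finset.mem_Ioc]
        refine ⟨?_, Nat.le_floor hqL⟩
        obtain ⟨_, _, _, _, _, _, hqp, _⟩ := hA
        exact hqp.pos
      · rw [Finset.mem_filter]
        exact ⟨hk, hA⟩
    have hcard : (S.card : ℝ) ≤ ∑ q ∈ Finset.Ioc 0 ⌊L ^ (1 / 4 : ℝ)⌋₊,
        (((S.filter (fun k => ArithF lam q k)).card : ℕ) : ℝ) := by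
      have := (Finset.card_le_card hcover).trans Finset.card_biUnion_le
      exact_mod_cast this
    calc (S.card : ℝ) ≤ ∑ q ∈ Finset.Ioc 0 ⌊L ^ (1 / 4 : ℝ)⌋₊,
          (((S.filter (fun k => ArithF lam q k)).card : ℕ) : ℝ) := hcard
      _ ≤ ∑ q ∈ Finset.Ioc 0 ⌊L ^ (1 / 4 : ℝ)⌋₊, C * (K2 + 1) * x * L ^ (-(3 / 8) : ℝ) :=
          Finset.sum_le_sum key
      _ = (⌊L ^ (1 / 4 : ℝ)⌋₊ : ℝ) * (C * (K2 + 1) * x * L ^ (-(3 / 8) : ℝ)) := by
          rw [Finset.sum_const, Nat.card_Ioc, nsmul_eq_mul, Nat.sub_zero]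
      _ ≤ L ^ (1 / 4 : ℝ) * (C * (K2 + 1) * x * L ^ (-(3 / 8) : ℝ)) := by
          apply mul_le_mul_of_nonneg_right (Nat.floor_le (by positivity)) (by positivity)
      _ = C * (K2 + 1) * x * (L ^ (1 / 4 : ℝ) * L ^ (-(3 / 8) : ℝ)) := by ring
      _ = C * (K2 + 1) * x * L ^ (-(1 / 8) : ℝ) := by
          rw [← Real.rpow_add hL0]
          norm_num
      _ ≤ (C * (K2 + 1) + 2 * Real.log X ^ (1 / 8 : ℝ)) * x * L ^ (-(1 / 8) : ℝ) := by
          apply mul_le_mul_of_nonneg_right _ (by positivity)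
          apply mul_le_mul_of_nonneg_right _ (by linarith)
          have : 0 ≤ Real.log X ^ (1 / 8 : ℝ) := by positivity
          linarith

end Pool.Agent.Helper17.FP
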